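import Pool.Agent.Lib.MP_8f64b1_lc.Classes

/-!
KERNEL-PERFECTNESS of digraphs is complete for the class `Π₂ᵖ` under polynomial time many-one
reductions; consequently it is in `coNP` if and only if `NP = coNP`.
-/

namespace Pool.Agent.Results.MP_8f64b1_lc.PiTwoComplete

open N68a2faeb N793a5b8e Pool.Agent.Lib.MP_8f64b1_lc

theorem result :
    IsCompleteFor Pi2 KERNELPERFECTNESS ∧ (KERNELPERFECTNESS ∈ coNP ↔ NP = coNP) :=
  main

end Pool.Agent.Results.MP_8f64b1_lc.PiTwoComplete
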